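import Mathlib
import Pool.Agent.H55.PowMod

namespace Pool.Agent.Results.MP_aad82b_nt.LastDigitNine

/-- `n = 1210344599` ends in the digit 9 and satisfies `2^(n-2) ≡ 1 (mod n)`. -/
theorem result : ∃ n : ℕ, 2 ≤ n ∧ n % 10 = 9 ∧ 2 ^ (n - 2) ≡ 1 [MOD n] := by
  refine ⟨1210344599, by norm_num, by norm_num, ?_⟩
  unfold Nat.ModEq
  rw [← Pool.Agent.H55.PowMod.pm_eq 2 _ 40 _ (by decide +kernel)]
  decide +kernel

end Pool.Agent.Results.MP_aad82b_nt.LastDigitNine
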